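import Pool.Agent.NH53.LP.Sys

set_option autoImplicit false

open Finset Pool.Agent.W432.PC Pool.Agent.NH53.LP

/-!
# The thrice punctured line: large primes at one point

Let `∇ = d/dt - (b / t + c / (t - 1))` be a system of rank `r` with rational exponents. Suppose that the
projective local monodromies at two of the points `0`, `1`, `∞` have orders which divide `M`, the one at
the third point has an order which divides `n`, where `n` is prime to `M`, and `s` is the number of its
different eigenvalues. If the prime factors of `n` are larger than `(2 M) ^ (s - 1)` (more precisely
`(2 M) ^ (s - 1) ∑ 1 / p < 1`, the sum over the primes which divide `n`), and the first two local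
monodromies are not inverse to one another up to a scalar factor (their spectra with multiplicities),
then Grothendieck's conjecture holds for the system: the `p`-curvatures are nonzero for all large primes
`p` in some residue class. There is also a form of the theorem for the orders of the local monodromies
themselves. The system may be reducible; the rank, the number of accessory parameters, the
multiplicities and resonances are arbitrary, and the bound depends only on `M` and `s`. For example, if
the projective orders are `2`, `3` and a prime number `ℓ`, the bound is `12 ^ (s - 1) < ℓ`.

Proof. Suppose that for every class modulo `B` the `p`-curvatures vanish at closed points of arbitrarily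
large residue characteristic in the class. For all units `a`, the conjugate exponents `a λ` satisfy
the arc inequality (at least `r` of them are outside of arcs of total length one with general end
points). It follows from the starting theorem `Pool.Agent.W432.PC.main` on degrees of subbundles for
`∇` and its dual. By Dirichlet's principle, applied to the units modulo `n` with a fixed residue modulo
`M` (the number of nonunits is at most `n ∑ 1 / p`), there is a unit `a` such that the exponents at the
third point are, after the multiplication by `a`, in an interval of length less than `1 / M`, and are
fixed or translated by a given amount at the other points. The arc inequality for one exponent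
at the first point and the complement of an arc of length less than `1 / M` at the second one shows
that the multiplicity of each exponent at the first point is at most that of the opposite exponent at
the second, so they are equal.
-/

namespace Pool.Agent.Results.MP_5e5ff1_ag.OnePointLargePrimes

universe u

/-- Let `∇ = d/dt - (b / t + c / (t - 1))` be a system of rank `r` over a domain `R` of characteristic
zero, of finite type over `ℤ`, with rational exponents `lam 0 l` at `0` (eigenvalues of `b`), `lam 1 l`
at `1` (eigenvalues of `c`) and `lam 2 l` at infinity (eigenvalues of `-(b + c)`). Assume `OnePoint lam x y z`,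
where `x`, `y`, `z` are the three points in some order: there are coprime positive integers `M` and `n`
such that the differences of the exponents at `x` and the differences of those at `y` are in
`(1 / M) ℤ`, the differences of those at `z` are in `(1 / n) ℤ`, and, `s` being the number of the
exponents at `z` modulo `ℤ`,

* either `(2 M) ^ (s - 1) ∑ 1 / p < 1`, the sum over the primes `p` which divide `n` (for a prime power
`n = p ^ j`: `(2 M) ^ (s - 1) < p`), and there is no `c` such that modulo `ℤ` and with multiplicities the
exponents at `y` are the numbers `c - λ`, `λ` an exponent at `x`;

* or `(2 M) ^ s ∑ 1 / p < 1`, the sums of three exponents, one for each point, are in `(1 / (M n)) ℤ`, and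
if the exponents at `y` are the numbers `c - λ` as above, then the exponents at `z` are not all in
`- c + (1 / n) ℤ`.

Then for every common denominator `B` of the exponents there is a residue class modulo `B`, prime to
`B`, such that the `p`-curvature of `∇` is nonzero at every closed point of `Spec R` whose residue
characteristic is a large prime in that class; in particular the `p`-curvatures do not vanish on a dense
open subset of `Spec R`. The system need not be irreducible. -/
theorem result {R : Type u} [CommRing R] [IsDomain R] [CharZero R] [Algebra.FiniteType ℤ R] {r : ℕ}
    (b c : Matrix (Fin r) (Fin r) R) (lam : Fin 3 → Fin r → ℚ)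
    (h0 : HasExponents b (lam 0)) (h1 : HasExponents c (lam 1))
    (h2 : HasExponents (b + c) (fun l => -lam 2 l))
    (x y z : Fin 3) (hxy : x ≠ y) (hyz : y ≠ z) (hxz : x ≠ z) (h : OnePoint lam x y z) :
    (∀ B : ℕ, 0 < B → (∀ i l, ∃ m : ℤ, (B : ℚ) * lam i l = m) →
      ∃ a : ℤ, IsCoprime a (B : ℤ) ∧ ∃ P₀ : ℕ,
        ∀ p : ℕ, p.Prime → P₀ < p → (B : ℤ) ∣ a * p + 1 →
          ∀ (𝔪 : Ideal R) [𝔪.IsMaximal], (p : R) ∈ 𝔪 → ¬ PCurvZeroAt ![0, 1] ![b, c] 𝔪) ∧
    ¬ CondII (![0, 1] : Fin 2 → R) ![b, c] := by
  have hα : ∀ i j : Fin 2, i ≠ j → IsUnit ((![0, 1] : Fin 2 → R) i - ![0, 1] j) := by
    intro i j hij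
    fin_cases i <;> fin_cases j
    · exact absurd rfl hij
    · simp
    · simp
    · exact absurd rfl hij
  have hlam : ∀ j : Fin 2, HasExponents ((![b, c] : Fin 2 → Matrix (Fin r) (Fin r) R) j)
      (lam j.castSucc) := by
    intro j
    fin_cases j
    · exact h0
    · exact h1
  have hphi : HasExponents (∑ j, (![b, c] : Fin 2 → Matrix (Fin r) (Fin r) R) j)
      (fun l => -lam 2 l) := by
    rw [Fin.sum_univ_two]
    exact h2
  have key : ∀ B : ℕ, 0 < B → (∀ i l, ∃ m : ℤ, (B : ℚ) * lam i l = m) →
      BadClass (![0, 1] : Fin 2 → R) ![b, c] B := fun B hB hBlam =>
    sys_onePoint _ hα _ lam hlam hphi hB hBlam hxy hyz hxz h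
  obtain ⟨B, hB, hBlam⟩ := exists_den lam
  refine ⟨key, ?_⟩
  obtain ⟨a, ha, P₀, hP⟩ := key B hB hBlam
  exact not_condII_of _ _ B hB a ha ⟨1, one_ne_zero, P₀, fun p hp hpP hap 𝔪 _ hpm _ =>
    hP p hp hpP hap 𝔪 hpm⟩

end Pool.Agent.Results.MP_5e5ff1_ag.OnePointLargePrimes
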