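import Pool.Agent.NH53.LP.Semi
import Pool.Agent.NH53.LP.Sys

set_option autoImplicit false

open Finset Pool.Agent.W432.PC Pool.Agent.NH53.LP

/-!
# The thrice punctured line: the exponents modulo large primes

Let `∇ = d/dt - (b / t + c / (t - 1))` be a system of rank `r` with rational exponents, and let `P` be a
finite set of primes. Up to a twist by a system of rank one, the exponents are fractions
`λ = e / (M n)`, where the prime factors of `n` are in `P` and `M` is prime to `n`. The numbers `n λ`, with
the denominator `M`, are the exponents without their parts at `P`: for a finite group these are the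
exponents of the powers `x ^ n`, `y ^ n`, `z ^ n` of the local monodromies (whose product is not `1` any
more). It is shown that they still satisfy the inequalities of semistability for line subbundles, and
so do all their conjugates, if the `p`-curvatures vanish and the primes in `P` are large:
`(3 M) ^ k ∑ 1 / p < 1`, the sum over the primes in `P`, where `k` is the number of the nonzero classes
modulo `n` of the numerators `e`. In other words, Grothendieck's conjecture holds for `∇` (its
`p`-curvatures are nonzero for all large primes in some residue class) if the inequalities of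
semistability are violated by one of the conjugates of the exponents without their parts at `P`. The
system may be reducible. For example (`M` arbitrary, `γ` zero at two points) this is the case if an
exponent at `x` and an exponent at `y` have multiplicities modulo the fractions with denominator `n`
whose sum is greater than `r` plus the multiplicity of the opposite of their sum at `z`.

Proof. Let `N` be a common denominator. If the `p`-curvatures vanish for closed points of arbitrarily
large characteristic in every class, for every unit `u` at least `r` of the numbers `u λ` are outside of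
arcs of total length less than one whose end points are not resonant. By Dirichlet's principle and the
chinese remainder theorem the unit `u` can be chosen such that the part at `P` of every `u λ` is less
than `1 / (3 M)` and the other part is the given conjugate. So an arc of `γ + 1` consecutive fractions
with denominator `M` can be replaced by an arc of length `(γ + 2 / 3) / M`.
-/

namespace Pool.Agent.Results.MP_5e5ff1_ag.SemistableModuloLargePrimes

universe u

/-- Let `∇ = d/dt - (b / t + c / (t - 1))` be a system of rank `r` over a domain `R` of characteristic
zero, of finite type over `ℤ`, with rational exponents `lam 0 l` at `0` (eigenvalues of `b`), `lam 1 l`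
at `1` (eigenvalues of `c`) and `lam 2 l` at infinity (eigenvalues of `-(b + c)`). 
Let `M` and `n` be coprime positive integers, let `ε i` be rational numbers with sum zero, and let
`lam i l - ε i = e i l / (M n)` with integers `e i l`. Assume that `(3 M) ^ k ∑ 1 / p < 1`, the sum over
the primes `p` which divide `n`, where `k = residues n e` is the number of the nonzero residue classes of
the `e i l` modulo `n`, and that the fractions `e i l / M` are unstable (`Unstable M e`): there are an
integer `u` prime to `M` and integers `b i` and `γ i ≥ 0` such that `∑ b i` is congruent to `1` modulo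
`M`, `∑ γ i = M - 2`, and more than `2 r` of the numbers `u * e i l` are congruent modulo `M` to one of
`b i, b i + 1, …, b i + γ i`.

Then for every common denominator `B` of the exponents there is a residue class modulo `B`, prime to
`B`, such that the `p`-curvature of `∇` is nonzero at every closed point of `Spec R` whose residue
characteristic is a large prime in that class; in particular the `p`-curvatures do not vanish on a dense
open subset of `Spec R`. The system need not be irreducible. -/
theorem result {R : Type u} [CommRing R] [IsDomain R] [CharZero R] [Algebra.FiniteType ℤ R] {r : ℕ}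
    (b c : Matrix (Fin r) (Fin r) R) (lam : Fin 3 → Fin r → ℚ)
    (h0 : HasExponents b (lam 0)) (h1 : HasExponents c (lam 1))
    (h2 : HasExponents (b + c) (fun l => -lam 2 l))
    (M n : ℕ) (hM : 0 < M) (hn : 0 < n) (hMn : Nat.Coprime M n) (ε : Fin 3 → ℚ) (hε : ∑ i, ε i = 0)
    (e : Fin 3 → Fin r → ℤ) (he : ∀ i l, ((M * n : ℕ) : ℚ) * (lam i l - ε i) = e i l)
    (hR : Rough n (3 * M) (residues n e)) (hun : Unstable M e) :
    (∀ B : ℕ, 0 < B → (∀ i l, ∃ m : ℤ, (B : ℚ) * lam i l = m) →
      ∃ a : ℤ, IsCoprime a (B : ℤ) ∧ ∃ P₀ : ℕ,
        ∀ p : ℕ, p.Prime → P₀ < p → (B : ℤ) ∣ a * p + 1 →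
          ∀ (𝔪 : Ideal R) [𝔪.IsMaximal], (p : R) ∈ 𝔪 → ¬ PCurvZeroAt ![0, 1] ![b, c] 𝔪) ∧
    ¬ CondII (![0, 1] : Fin 2 → R) ![b, c] := by
  have hα : ∀ i j : Fin 2, i ≠ j → IsUnit ((![0, 1] : Fin 2 → R) i - ![0, 1] j) := by
    intro i j hij
    fin_cases i <;> fin_cases j
    · exact absurd rfl hij
    · simp
    · simp
    · exact absurd rfl hij
  have hlam : ∀ j : Fin 2, HasExponents ((![b, c] : Fin 2 → Matrix (Fin r) (Fin r) R) j)
      (lam j.castSucc) := by
    intro j
    fin_cases j
    · exact h0
    · exact h1
  have hphi : HasExponents (∑ j, (![b, c] : Fin 2 → Matrix (Fin r) (Fin r) R) j)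
      (fun l => -lam 2 l) := by
    rw [Fin.sum_univ_two]
    exact h2
  have key : ∀ B : ℕ, 0 < B → (∀ i l, ∃ m : ℤ, (B : ℚ) * lam i l = m) →
      BadClass (![0, 1] : Fin 2 → R) ![b, c] B := fun B hB hBlam =>
    sys_semi _ hα _ lam hlam hphi hB hBlam hM hn hMn ε hε e he (by
      unfold Rough at hR
      push_cast at hR
      exact hR) hun
  obtain ⟨B, hB, hBlam⟩ := exists_den lam
  refine ⟨key, ?_⟩
  obtain ⟨a, ha, P₀, hP⟩ := key B hB hBlam
  exact not_condII_of _ _ B hB a ha ⟨1, one_ne_zero, P₀, fun p hp hpP hap 𝔪 _ hpm _ =>
    hP p hp hpP hap 𝔪 hpm⟩

end Pool.Agent.Results.MP_5e5ff1_ag.SemistableModuloLargePrimes
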