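import Pool.Agent.NH53.LP.Sys

set_option autoImplicit false

open Finset Pool.Agent.W432.PC Pool.Agent.NH53.LP

/-!
# The thrice punctured line: large primes at two points

Let `∇ = d/dt - (b / t + c / (t - 1))` be a system of rank `r` with rational exponents. Let `P` be a
finite set of primes and suppose that the projective local monodromies at two of the points `0`, `1`,
`∞` have orders without prime factors outside of `P`, and that this is not so at the third point (or,
more generally, that some sum of three exponents, one for each point, has a denominator with a prime
factor outside of `P`). If `24 ^ (s + s' - 1) ∑ 1 / p < 1`, the sum over the primes in `P`, where `s` and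
`s'` are the numbers of the different eigenvalues of the first two local monodromies, Grothendieck's
conjecture holds for the system: the `p`-curvatures are nonzero for all large primes `p` in some residue
class. Nothing else is assumed on the exponents at the third point, the system may be reducible, and the
bound does not depend on the rank nor on the other primes. Together with the case of large primes at one
point only (where the bound depends on the orders at the other points) it follows that for given `k`
there are only finitely many triples of different prime numbers which may be the orders of the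
projective local monodromies of a system, of any rank, with at most `k + 1` different eigenvalues at each
point and vanishing `p`-curvatures.

Proof. Suppose that for every class modulo `B` the `p`-curvatures vanish at closed points of arbitrarily
large residue characteristic in the class. For all units `a`, the conjugate exponents `a λ` satisfy
the arc inequality (at least `r` of them are outside of arcs of total length one with general end
points), by the starting theorem `Pool.Agent.W432.PC.main` for `∇` and its dual. By Dirichlet's
principle for the units modulo `n` with a fixed residue modulo `M` (`n` a product of primes in `P`, `M`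
prime to `n`) the exponents at `y` and at `z` and the part prime to `M` of the given sum can be put into
intervals of length less than `1 / 12`. The arc inequality then says that the exponents at `x` are in an
interval of length less than `1 / 6` opposite to the others. But the residue modulo `M` can be chosen
such that the given sum is in the middle of the circle.
-/

namespace Pool.Agent.Results.MP_5e5ff1_ag.TwoPointsLargePrimes

universe u

/-- Let `∇ = d/dt - (b / t + c / (t - 1))` be a system of rank `r` over a domain `R` of characteristic
zero, of finite type over `ℤ`, with rational exponents `lam 0 l` at `0` (eigenvalues of `b`), `lam 1 l`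
at `1` (eigenvalues of `c`) and `lam 2 l` at infinity (eigenvalues of `-(b + c)`). Assume one of the following.

* (1) `TwoPoints lam y z` for two of the three points: there is a positive integer `n` such that the
differences of the exponents at `y` and the differences of those at `z` are in `(1 / n) ℤ`, and
`24 ^ (s - 1 + s') ∑ 1 / p < 1`, the sum over the primes `p` which divide `n`, where `s` and `s'` are the
numbers of the exponents at `y` and at `z` modulo `ℤ`; and there is a sum of three exponents, one for each
point, whose denominator has a prime factor which does not divide `n`.

* (2) `ThreePrimes lam`: there are three different prime numbers `p 0`, `p 1`, `p 2` such that the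
differences of the exponents at the point `i` are in `(1 / p i) ℤ`, but are not all integers, and one of
the `p i` is at least `(8 * 24 ^ (4 k + 2)) ^ k`, where at each of the points there are at most `k + 1`
exponents modulo `ℤ`.

Then for every common denominator `B` of the exponents there is a residue class modulo `B`, prime to
`B`, such that the `p`-curvature of `∇` is nonzero at every closed point of `Spec R` whose residue
characteristic is a large prime in that class; in particular the `p`-curvatures do not vanish on a dense
open subset of `Spec R`. The system need not be irreducible. -/
theorem result {R : Type u} [CommRing R] [IsDomain R] [CharZero R] [Algebra.FiniteType ℤ R] {r : ℕ}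
    (b c : Matrix (Fin r) (Fin r) R) (lam : Fin 3 → Fin r → ℚ)
    (h0 : HasExponents b (lam 0)) (h1 : HasExponents c (lam 1))
    (h2 : HasExponents (b + c) (fun l => -lam 2 l))
    (h : (∃ y z : Fin 3, y ≠ z ∧ TwoPoints lam y z) ∨ ThreePrimes lam) :
    (∀ B : ℕ, 0 < B → (∀ i l, ∃ m : ℤ, (B : ℚ) * lam i l = m) →
      ∃ a : ℤ, IsCoprime a (B : ℤ) ∧ ∃ P₀ : ℕ,
        ∀ p : ℕ, p.Prime → P₀ < p → (B : ℤ) ∣ a * p + 1 →
          ∀ (𝔪 : Ideal R) [𝔪.IsMaximal], (p : R) ∈ 𝔪 → ¬ PCurvZeroAt ![0, 1] ![b, c] 𝔪) ∧
    ¬ CondII (![0, 1] : Fin 2 → R) ![b, c] := by
  have hα : ∀ i j : Fin 2, i ≠ j → IsUnit ((![0, 1] : Fin 2 → R) i - ![0, 1] j) := by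
    intro i j hij
    fin_cases i <;> fin_cases j
    · exact absurd rfl hij
    · simp
    · simp
    · exact absurd rfl hij
  have hlam : ∀ j : Fin 2, HasExponents ((![b, c] : Fin 2 → Matrix (Fin r) (Fin r) R) j)
      (lam j.castSucc) := by
    intro j
    fin_cases j
    · exact h0
    · exact h1
  have hphi : HasExponents (∑ j, (![b, c] : Fin 2 → Matrix (Fin r) (Fin r) R) j)
      (fun l => -lam 2 l) := by
    rw [Fin.sum_univ_two]
    exact h2
  have key : ∀ B : ℕ, 0 < B → (∀ i l, ∃ m : ℤ, (B : ℚ) * lam i l = m) →
      BadClass (![0, 1] : Fin 2 → R) ![b, c] B := by
    intro B hB hBlam
    have h' : ∃ x y z : Fin 3, x ≠ y ∧ y ≠ z ∧ x ≠ z ∧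
        (OnePoint lam x y z ∨ TwoPoints lam y z) := by
      rcases h with ⟨y, z, hyz, h⟩ | h
      · obtain ⟨x, hxy, hxz⟩ : ∃ x : Fin 3, x ≠ y ∧ x ≠ z := by
          fin_cases y <;> fin_cases z <;> first | exact absurd rfl hyz | decide
        exact ⟨x, y, z, hxy, hyz, hxz, Or.inr h⟩
      · exact h.points
    obtain ⟨x, y, z, hxy, hyz, hxz, h | h⟩ := h'
    · exact sys_onePoint _ hα _ lam hlam hphi hB hBlam hxy hyz hxz h
    · exact sys_twoPoints _ hα _ lam hlam hphi hB hBlam hxy hyz hxz h
  obtain ⟨B, hB, hBlam⟩ := exists_den lam
  refine ⟨key, ?_⟩
  obtain ⟨a, ha, P₀, hP⟩ := key B hB hBlam
  exact not_condII_of _ _ B hB a ha ⟨1, one_ne_zero, P₀, fun p hp hpP hap 𝔪 _ hpm _ =>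
    hP p hp hpP hap 𝔪 hpm⟩

end Pool.Agent.Results.MP_5e5ff1_ag.TwoPointsLargePrimes
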